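import Mathlib

/-!
# Lines meeting the graph of a function with large total curvature

There is no bound on the total curvature in terms of the number of intersections with lines:
for every `K` there is a `C²` function `y` on `[0,1]` with `|y| ≤ 1`, `|y'| ≤ 1`,
`∫ |y''| ≥ K`, whose graph meets every line in at most `14` points.
-/

set_option autoImplicit false

open Set Filter Topology Polynomial

namespace Pool.Agent.Results.MP_d93447_an.FewLines

/-- The statement of Q1 for given `M` and `N`. -/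
def Claim (M N : ℕ) : Prop :=
  ∃ K : ℝ, ∀ y : ℝ → ℝ, ContDiffOn ℝ 2 y (Icc 0 1) →
    (∀ x ∈ Icc (0 : ℝ) 1, |y x| ≤ M) →
    (∀ x ∈ Icc (0 : ℝ) 1, |derivWithin y (Icc 0 1) x| ≤ M) →
    K ≤ ∫ x in (0 : ℝ)..1, |derivWithin (derivWithin y (Icc 0 1)) (Icc 0 1) x| →
    ∃ a b : ℝ, (N : ℕ∞) ≤ Set.encard {x ∈ Icc (0 : ℝ) 1 | y x = a + b * x}

/-! ### the positive part powers -/

/-- `pp n x = (x₊)^n`. -/
noncomputable def pp (n : ℕ) (x : ℝ) : ℝ := max x 0 ^ n

lemma pp_hasDerivAt (n : ℕ) (x : ℝ) : HasDerivAt (pp (n + 2)) ((n + 2 : ℝ) * pp (n + 1) x) x := by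
  rcases lt_trichotomy x 0 with h | h | h
  · have e : pp (n + 2) =ᶠ[𝓝 x] fun _ => (0 : ℝ) := by
      filter_upwards [Iio_mem_nhds h] with z hz
      simp only [pp]
      rw [max_eq_right (le_of_lt hz)]; simp
    have h1 : (n + 2 : ℝ) * pp (n + 1) x = 0 := by
      simp only [pp]
      rw [max_eq_right h.le]; simp
    rw [h1]
    exact (hasDerivAt_const x (0 : ℝ)).congr_of_eventuallyEq e
  · subst h
    have h1 : (n + 2 : ℝ) * pp (n + 1) 0 = 0 := by simp [pp]
    rw [h1, hasDerivAt_iff_isLittleO_nhds_zero]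
    have h2 : (fun h : ℝ => pp (n + 2) (0 + h) - pp (n + 2) 0 - h • (0 : ℝ)) =O[𝓝 0]
        fun h : ℝ => h ^ (n + 2) := by
      refine Asymptotics.IsBigO.of_bound 1 (Eventually.of_forall fun h => ?_)
      simp only [pp, zero_add, max_self, smul_zero, sub_zero, ne_eq, Nat.add_eq_zero_iff,
        OfNat.ofNat_ne_zero, and_false, not_false_eq_true, zero_pow, one_mul, Real.norm_eq_abs,
        abs_pow]
      apply pow_le_pow_left₀ (abs_nonneg _)
      rw [abs_of_nonneg (le_max_right _ _)]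
      exact max_le (le_abs_self h) (abs_nonneg h)
    refine h2.trans_isLittleO ?_
    have h3 := Asymptotics.isLittleO_pow_pow (𝕜 := ℝ) (m := 1) (n := n + 2) (by omega)
    simpa using h3
  · have e : pp (n + 2) =ᶠ[𝓝 x] fun z => z ^ (n + 2) := by
      filter_upwards [Ioi_mem_nhds h] with z hz
      simp only [pp]
      rw [max_eq_left (le_of_lt hz)]
    have h1 : (n + 2 : ℝ) * pp (n + 1) x = ((n + 2 : ℕ) : ℝ) * x ^ (n + 2 - 1) := by
      simp only [pp]
      rw [max_eq_left h.le]; push_cast; rfl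
    rw [h1]
    exact (hasDerivAt_pow (n + 2) x).congr_of_eventuallyEq e

lemma pp_nonpos {n : ℕ} {x : ℝ} (hx : x ≤ 0) : pp (n + 1) x = 0 := by
  simp only [pp]; rw [max_eq_right hx]; simp

lemma pp_pos {n : ℕ} {x : ℝ} (hx : 0 ≤ x) : pp n x = x ^ n := by
  simp only [pp]; rw [max_eq_left hx]

/-- the bump and its two derivatives -/
noncomputable def β (t : ℝ) : ℝ := 2 * (pp 3 t * pp 3 (1 - t))

noncomputable def β1 (t : ℝ) : ℝ := 6 * (pp 2 t * pp 3 (1 - t) - pp 3 t * pp 2 (1 - t))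

noncomputable def β2 (t : ℝ) : ℝ :=
  6 * (2 * pp 1 t * pp 3 (1 - t) - 6 * pp 2 t * pp 2 (1 - t) + 2 * pp 3 t * pp 1 (1 - t))

lemma pp3' (t : ℝ) : HasDerivAt (fun t => pp 3 (1 - t)) (-(3 * pp 2 (1 - t))) t := by
  have h1 := pp_hasDerivAt 1 (1 - t)
  have h2 : HasDerivAt (fun t : ℝ => 1 - t) (-1) t := by
    simpa using (hasDerivAt_id t).const_sub 1
  have h3 := h1.comp t h2
  refine h3.congr_deriv ?_
  norm_num

lemma pp2' (t : ℝ) : HasDerivAt (fun t => pp 2 (1 - t)) (-(2 * pp 1 (1 - t))) t := by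
  have h1 := pp_hasDerivAt 0 (1 - t)
  have h2 : HasDerivAt (fun t : ℝ => 1 - t) (-1) t := by
    simpa using (hasDerivAt_id t).const_sub 1
  have h3 := h1.comp t h2
  refine h3.congr_deriv ?_
  norm_num

lemma pp3 (t : ℝ) : HasDerivAt (pp 3) (3 * pp 2 t) t := by
  have h1 := pp_hasDerivAt 1 t
  refine h1.congr_deriv ?_
  norm_num

lemma pp2 (t : ℝ) : HasDerivAt (pp 2) (2 * pp 1 t) t := by
  have h1 := pp_hasDerivAt 0 t
  refine h1.congr_deriv ?_
  norm_num

lemma β_hasDerivAt (t : ℝ) : HasDerivAt β (β1 t) t := by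
  have h := ((pp3 t).mul (pp3' t)).const_mul 2
  refine h.congr_deriv ?_
  simp only [β1]; ring

lemma β1_hasDerivAt (t : ℝ) : HasDerivAt β1 (β2 t) t := by
  have h := (((pp2 t).mul (pp3' t)).sub ((pp3 t).mul (pp2' t))).const_mul 6
  refine h.congr_deriv ?_
  simp only [β2]; ring

lemma pp_cont (n : ℕ) : Continuous (pp n) := by
  unfold pp; fun_prop

lemma β2_cont : Continuous β2 := by
  unfold β2
  have := pp_cont 1
  have := pp_cont 2
  have := pp_cont 3
  fun_prop

lemma β_zero {t : ℝ} (h : t ≤ 0 ∨ 1 ≤ t) : β t = 0 := by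
  rcases h with h | h
  · simp only [β]; rw [pp_nonpos (n := 2) h]; ring
  · simp only [β]; rw [pp_nonpos (n := 2) (x := 1 - t) (by linarith)]; ring

lemma β1_zero {t : ℝ} (h : t ≤ 0 ∨ 1 ≤ t) : β1 t = 0 := by
  rcases h with h | h
  · simp only [β1]; rw [pp_nonpos (n := 2) h, pp_nonpos (n := 1) h]; ring
  · simp only [β1]
    rw [pp_nonpos (n := 2) (x := 1 - t) (by linarith),
      pp_nonpos (n := 1) (x := 1 - t) (by linarith)]; ring

lemma β_mid {t : ℝ} (h0 : 0 ≤ t) (h1 : t ≤ 1) : β t = 2 * (t ^ 3 * (1 - t) ^ 3) := by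
  simp only [β]; rw [pp_pos h0, pp_pos (by linarith : (0 : ℝ) ≤ 1 - t)]

lemma β1_mid {t : ℝ} (h0 : 0 ≤ t) (h1 : t ≤ 1) :
    β1 t = 6 * ((t * (1 - t)) ^ 2 * (1 - 2 * t)) := by
  simp only [β1]
  rw [pp_pos h0, pp_pos h0, pp_pos (by linarith : (0 : ℝ) ≤ 1 - t),
    pp_pos (by linarith : (0 : ℝ) ≤ 1 - t)]
  ring

lemma β_bound (t : ℝ) : |β t| ≤ 1 / 32 := by
  rcases le_or_gt t 0 with h | h
  · rw [β_zero (Or.inl h)]; norm_num
  rcases le_or_gt 1 t with h' | h'
  · rw [β_zero (Or.inr h')]; norm_num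
  rw [β_mid h.le h'.le]
  have h1 : 0 ≤ t * (1 - t) := mul_nonneg h.le (by linarith)
  have h2 : t * (1 - t) ≤ 1 / 4 := by nlinarith [sq_nonneg (t - 1 / 2)]
  have h3 : (t * (1 - t)) ^ 3 ≤ (1 / 4) ^ 3 := pow_le_pow_left₀ h1 h2 3
  rw [← mul_pow, abs_of_nonneg (by positivity)]
  norm_num at h3
  linarith

lemma β1_bound (t : ℝ) : |β1 t| ≤ 3 / 8 := by
  rcases le_or_gt t 0 with h | h
  · rw [β1_zero (Or.inl h)]; norm_num
  rcases le_or_gt 1 t with h' | h'
  · rw [β1_zero (Or.inr h')]; norm_num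
  rw [β1_mid h.le h'.le]
  have h1 : 0 ≤ t * (1 - t) := mul_nonneg h.le (by linarith)
  have h2 : t * (1 - t) ≤ 1 / 4 := by nlinarith [sq_nonneg (t - 1 / 2)]
  have h3 : (t * (1 - t)) ^ 2 ≤ (1 / 4) ^ 2 := pow_le_pow_left₀ h1 h2 2
  have h4 : |1 - 2 * t| ≤ 1 := by rw [abs_le]; constructor <;> linarith
  rw [abs_mul, abs_mul, abs_of_nonneg (by positivity : (0 : ℝ) ≤ (t * (1 - t)) ^ 2)]
  rw [abs_of_pos (by norm_num : (0 : ℝ) < 6)]
  have h5 : (t * (1 - t)) ^ 2 * |1 - 2 * t| ≤ (1 / 4) ^ 2 * 1 :=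
    mul_le_mul h3 h4 (abs_nonneg _) (by norm_num)
  linarith

/-! ### the function -/

section fn

variable (k : ℕ)

/-- width of the bumps -/
noncomputable def eps : ℝ := 1 / (2 * (k : ℝ) ^ 2)

/-- scaled variable in the `i`-th bump -/
noncomputable def tt (i : ℕ) (x : ℝ) : ℝ := (x - i / k) / eps k

noncomputable def y (x : ℝ) : ℝ := x ^ 2 / 4 + ∑ i ∈ Finset.range k, eps k * β (tt k i x)

noncomputable def y1 (x : ℝ) : ℝ := x / 2 + ∑ i ∈ Finset.range k, β1 (tt k i x)

noncomputable def y2 (x : ℝ) : ℝ := 1 / 2 + ∑ i ∈ Finset.range k, β2 (tt k i x) / eps k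

variable {k} (hk : 0 < k)

include hk

lemma eps_pos : 0 < eps k := by
  have : (0 : ℝ) < k := by exact_mod_cast hk
  unfold eps; positivity

lemma eps_le : eps k ≤ 1 / (2 * k) := by
  have h1 : (1 : ℝ) ≤ k := by exact_mod_cast hk
  unfold eps
  apply one_div_le_one_div_of_le (by positivity)
  nlinarith

lemma tt_hasDerivAt (i : ℕ) (x : ℝ) : HasDerivAt (tt k i) (1 / eps k) x := by
  unfold tt
  simpa using ((hasDerivAt_id x).sub_const ((i : ℝ) / k)).div_const (eps k)

lemma y_hasDerivAt (x : ℝ) : HasDerivAt (y k) (y1 k x) x := by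
  have he := eps_pos hk
  have h1 : HasDerivAt (fun x : ℝ => x ^ 2 / 4) (x / 2) x := by
    have := (hasDerivAt_pow 2 x).div_const 4
    refine this.congr_deriv ?_
    push_cast; ring
  have h2 : HasDerivAt (fun x : ℝ => ∑ i ∈ Finset.range k, eps k * β (tt k i x))
      (∑ i ∈ Finset.range k, β1 (tt k i x)) x := by
    apply HasDerivAt.fun_sum
    intro i _
    have := ((β_hasDerivAt (tt k i x)).comp x (tt_hasDerivAt hk i x)).const_mul (eps k)
    refine this.congr_deriv ?_
    field_simp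
  exact h1.add h2

lemma y1_hasDerivAt (x : ℝ) : HasDerivAt (y1 k) (y2 k x) x := by
  have h1 : HasDerivAt (fun x : ℝ => x / 2) (1 / 2) x := by
    simpa using (hasDerivAt_id x).div_const 2
  have h2 : HasDerivAt (fun x : ℝ => ∑ i ∈ Finset.range k, β1 (tt k i x))
      (∑ i ∈ Finset.range k, β2 (tt k i x) / eps k) x := by
    apply HasDerivAt.fun_sum
    intro i _
    have := (β1_hasDerivAt (tt k i x)).comp x (tt_hasDerivAt hk i x)
    refine this.congr_deriv ?_
    ring
  exact h1.add h2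

omit hk in
lemma y2_cont : Continuous (y2 k) := by
  unfold y2 tt
  have := β2_cont
  fun_prop

lemma y_contDiff : ContDiff ℝ 2 (y k) := by
  have e1 : deriv (y k) = y1 k := funext fun x => (y_hasDerivAt hk x).deriv
  have e2 : deriv (y1 k) = y2 k := funext fun x => (y1_hasDerivAt hk x).deriv
  have h1 : ContDiff ℝ 1 (y1 k) := by
    rw [contDiff_one_iff_deriv]
    exact ⟨fun x => (y1_hasDerivAt hk x).differentiableAt, by rw [e2]; exact y2_cont⟩
  have h2 : ContDiff ℝ (1 + 1) (y k) := by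
    rw [contDiff_succ_iff_deriv]
    refine ⟨fun x => (y_hasDerivAt hk x).differentiableAt, by simp, by rw [e1]; exact h1⟩
  exact h2

/-- At each point at most one bump is alive. -/
lemma one_bump (φ : ℝ → ℝ) (hφ : ∀ t : ℝ, t ≤ 0 ∨ 1 ≤ t → φ t = 0) (c : ℝ) (x : ℝ) :
    (∑ i ∈ Finset.range k, c * φ (tt k i x) = 0) ∨
    ∃ i ∈ Finset.range k, (i / k : ℝ) < x ∧ x < i / k + eps k ∧
      ∑ j ∈ Finset.range k, c * φ (tt k j x) = c * φ (tt k i x) := by
  have hk' : (0 : ℝ) < k := by exact_mod_cast hk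
  have he := eps_pos hk
  have hel := eps_le hk
  have hsmall : eps k < 1 / k := by
    refine lt_of_le_of_lt hel ?_
    apply one_div_lt_one_div_of_lt hk'; linarith
  by_cases h : ∃ i ∈ Finset.range k, (i / k : ℝ) < x ∧ x < i / k + eps k
  · obtain ⟨i, hi, h1, h2⟩ := h
    refine Or.inr ⟨i, hi, h1, h2, ?_⟩
    apply Finset.sum_eq_single i
    · intro j _ hji
      have hz : φ (tt k j x) = 0 := by
        apply hφ
        rcases lt_or_gt_of_ne hji with hlt | hgt
        · right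
          unfold tt
          rw [le_div_iff₀ he, one_mul]
          have : (j : ℝ) + 1 ≤ i := by exact_mod_cast hlt
          have h3 : ((j : ℝ) + 1) / k ≤ i / k := by gcongr
          rw [add_div] at h3
          linarith
        · left
          unfold tt
          apply div_nonpos_of_nonpos_of_nonneg _ he.le
          have : (i : ℝ) + 1 ≤ j := by exact_mod_cast hgt
          have h3 : ((i : ℝ) + 1) / k ≤ j / k := by gcongr
          rw [add_div] at h3
          linarith
      rw [hz, mul_zero]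
    · intro hni; exact absurd hi hni
  · left
    push Not at h
    apply Finset.sum_eq_zero
    intro i hi
    have hz : φ (tt k i x) = 0 := by
      apply hφ
      rcases le_or_gt x (i / k : ℝ) with h1 | h1
      · left
        unfold tt
        exact div_nonpos_of_nonpos_of_nonneg (by linarith) he.le
      · right
        unfold tt
        rw [le_div_iff₀ he, one_mul]
        have := h i hi h1
        linarith
    rw [hz, mul_zero]

lemma sum_bound (φ : ℝ → ℝ) (hφ : ∀ t : ℝ, t ≤ 0 ∨ 1 ≤ t → φ t = 0) (c B : ℝ) (hB : 0 ≤ B)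
    (hb : ∀ t, |φ t| ≤ B) (x : ℝ) :
    |∑ i ∈ Finset.range k, c * φ (tt k i x)| ≤ |c| * B := by
  rcases one_bump hk φ hφ c x with h | ⟨i, _, _, _, h⟩
  · rw [h, abs_zero]; positivity
  · rw [h, abs_mul]; gcongr; exact hb _

lemma y_bound {x : ℝ} (hx : x ∈ Icc (0 : ℝ) 1) : |y k x| ≤ 1 := by
  have he := eps_pos hk
  have hk1 : (1 : ℝ) ≤ k := by exact_mod_cast hk
  have hel : eps k ≤ 1 := by
    refine (eps_le hk).trans ?_
    rw [div_le_one (by positivity)]; linarith
  have h1 := sum_bound hk β (fun t ht => β_zero ht) (eps k) (1 / 32) (by norm_num) β_bound x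
  rw [abs_of_pos he] at h1
  unfold y
  have h2 : |x ^ 2 / 4| ≤ 1 / 4 := by
    rw [abs_of_nonneg (by positivity)]
    have : x ^ 2 ≤ 1 := by nlinarith [hx.1, hx.2]
    linarith
  calc _ ≤ |x ^ 2 / 4| + |∑ i ∈ Finset.range k, eps k * β (tt k i x)| := abs_add_le _ _
    _ ≤ 1 / 4 + eps k * (1 / 32) := add_le_add h2 h1
    _ ≤ 1 := by nlinarith

lemma y1_bound {x : ℝ} (hx : x ∈ Icc (0 : ℝ) 1) : |y1 k x| ≤ 1 := by
  have h1 := sum_bound hk β1 (fun t ht => β1_zero ht) 1 (3 / 8) (by norm_num) β1_bound x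
  simp only [one_mul, abs_one] at h1
  unfold y1
  have h2 : |x / 2| ≤ 1 / 2 := by
    rw [abs_of_nonneg (by have := hx.1; positivity)]
    linarith [hx.2]
  calc _ ≤ |x / 2| + |∑ i ∈ Finset.range k, β1 (tt k i x)| := abs_add_le _ _
    _ ≤ 1 / 2 + 3 / 8 := add_le_add h2 h1
    _ ≤ 1 := by norm_num

/-- values of `y1` at the bump points -/
lemma y1_at {i : ℕ} (hi : i ∈ Finset.range k) :
    y1 k (i / k + eps k / 4) - y1 k (i / k) = eps k / 8 + 27 / 256 := by
  have hk' : (0 : ℝ) < k := by exact_mod_cast hk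
  have he := eps_pos hk
  have hsmall : eps k < 1 / k := by
    refine lt_of_le_of_lt (eps_le hk) ?_
    apply one_div_lt_one_div_of_lt hk'; linarith
  have hs : ∀ s : ℝ, 0 ≤ s → s ≤ 1 / 4 →
      ∑ j ∈ Finset.range k, β1 (tt k j (i / k + eps k * s)) = β1 s := by
    intro s hs0 hs1
    have e : tt k i (i / k + eps k * s) = s := by
      unfold tt; field_simp; ring
    rw [Finset.sum_eq_single i]
    · rw [e]
    · intro j _ hji
      apply β1_zero
      rcases lt_or_gt_of_ne hji with hlt | hgt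
      · right
        unfold tt
        rw [le_div_iff₀ he, one_mul]
        have : (j : ℝ) + 1 ≤ i := by exact_mod_cast hlt
        have h3 : ((j : ℝ) + 1) / k ≤ i / k := by gcongr
        rw [add_div] at h3
        have : 0 ≤ eps k * s := by positivity
        linarith
      · left
        unfold tt
        apply div_nonpos_of_nonpos_of_nonneg _ he.le
        have : (i : ℝ) + 1 ≤ j := by exact_mod_cast hgt
        have h3 : ((i : ℝ) + 1) / k ≤ j / k := by gcongr
        rw [add_div] at h3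
        have : eps k * s ≤ eps k * 1 := by gcongr; linarith
        linarith
    · intro hni; exact absurd hi hni
  have h0 := hs 0 le_rfl (by norm_num)
  have h4 := hs (1 / 4) (by norm_num) le_rfl
  rw [mul_zero, add_zero] at h0
  have e4 : eps k * (1 / 4) = eps k / 4 := by ring
  rw [e4] at h4
  unfold y1
  rw [h0, h4, β1_mid (by norm_num) (by norm_num), β1_mid (by norm_num) (by norm_num)]
  ring

lemma curvature : (k : ℝ) * (27 / 256) ≤ ∫ x in (0 : ℝ)..1, |y2 k x| := by
  have hk' : (0 : ℝ) < k := by exact_mod_cast hk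
  have he := eps_pos hk
  have hsmall : eps k < 1 / k := by
    refine lt_of_le_of_lt (eps_le hk) ?_
    apply one_div_lt_one_div_of_lt hk'; linarith
  have hc : Continuous fun x => |y2 k x| := y2_cont.abs
  have h1 : ∑ i ∈ Finset.range k, ∫ x in ((i : ℕ) / k : ℝ)..((i + 1 : ℕ) / k : ℝ), |y2 k x| =
      ∫ x in ((0 : ℕ) / k : ℝ)..((k : ℕ) / k : ℝ), |y2 k x| := by
    have := intervalIntegral.sum_integral_adjacent_intervals (μ := MeasureTheory.volume)
      (f := fun x => |y2 k x|) (a := fun i : ℕ => (i / k : ℝ)) (n := k)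
      (fun i _ => hc.intervalIntegrable _ _)
    exact this
  have h2 : ((0 : ℕ) / k : ℝ) = 0 := by simp
  have h3 : ((k : ℕ) / k : ℝ) = 1 := by field_simp
  rw [h2, h3] at h1
  rw [← h1]
  have h4 : ∀ i ∈ Finset.range k, (27 / 256 : ℝ) ≤
      ∫ x in ((i : ℕ) / k : ℝ)..((i + 1 : ℕ) / k : ℝ), |y2 k x| := by
    intro i hi
    have hle : (i / k : ℝ) + eps k / 4 ≤ ((i + 1 : ℕ) / k : ℝ) := by
      push_cast
      rw [add_div]
      linarith
    have h5 : ∫ x in ((i : ℕ) / k : ℝ)..((i : ℕ) / k + eps k / 4 : ℝ), y2 k x =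
        y1 k (i / k + eps k / 4) - y1 k (i / k) :=
      intervalIntegral.integral_eq_sub_of_hasDerivAt
        (fun x _ => y1_hasDerivAt hk x) (y2_cont.intervalIntegrable _ _)
    have h6 : ∫ x in ((i : ℕ) / k : ℝ)..((i : ℕ) / k + eps k / 4 : ℝ), y2 k x ≤
        ∫ x in ((i : ℕ) / k : ℝ)..((i : ℕ) / k + eps k / 4 : ℝ), |y2 k x| := by
      apply intervalIntegral.integral_mono_on (by linarith)
        (y2_cont.intervalIntegrable _ _) (hc.intervalIntegrable _ _)
      intro x _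
      exact le_abs_self _
    have h7 : ∫ x in ((i : ℕ) / k : ℝ)..((i : ℕ) / k + eps k / 4 : ℝ), |y2 k x| ≤
        ∫ x in ((i : ℕ) / k : ℝ)..((i + 1 : ℕ) / k : ℝ), |y2 k x| := by
      rw [← intervalIntegral.integral_add_adjacent_intervals
        (hc.intervalIntegrable ((i : ℕ) / k : ℝ) ((i : ℕ) / k + eps k / 4 : ℝ))
        (hc.intervalIntegrable ((i : ℕ) / k + eps k / 4 : ℝ) ((i + 1 : ℕ) / k : ℝ))]
      have : 0 ≤ ∫ x in ((i : ℕ) / k + eps k / 4 : ℝ)..((i + 1 : ℕ) / k : ℝ), |y2 k x| :=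
        intervalIntegral.integral_nonneg hle (fun x _ => abs_nonneg _)
      linarith
    rw [h5, y1_at hk hi] at h6
    linarith
  calc (k : ℝ) * (27 / 256) = ∑ _i ∈ Finset.range k, (27 / 256 : ℝ) := by
        rw [Finset.sum_const, Finset.card_range, nsmul_eq_mul]
    _ ≤ _ := Finset.sum_le_sum h4

/-- two points in different bumps are far apart -/
lemma far {i j : ℕ} (hij : i ≠ j) {p q : ℝ} (hp1 : (i / k : ℝ) < p) (hp2 : p < i / k + eps k)
    (hq1 : (j / k : ℝ) < q) (hq2 : q < j / k + eps k) : 1 / (2 * (k : ℝ)) ≤ |p - q| := by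
  have hk' : (0 : ℝ) < k := by exact_mod_cast hk
  have hel := eps_le hk
  have e : 1 / (k : ℝ) = 1 / (2 * k) + 1 / (2 * k) := by field_simp; try norm_num
  rcases lt_or_gt_of_ne hij with hlt | hgt
  · have : (i : ℝ) + 1 ≤ j := by exact_mod_cast hlt
    have h3 : ((i : ℝ) + 1) / k ≤ j / k := by gcongr
    rw [add_div] at h3
    rw [abs_sub_comm]
    refine le_trans ?_ (le_abs_self _)
    linarith
  · have : (j : ℝ) + 1 ≤ i := by exact_mod_cast hgt
    have h3 : ((j : ℝ) + 1) / k ≤ i / k := by gcongr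
    rw [add_div] at h3
    refine le_trans ?_ (le_abs_self _)
    linarith

lemma no_three {a b p q r : ℝ} (hpq : 1 / (2 * (k : ℝ)) ≤ |p - q|)
    (hpr : 1 / (2 * (k : ℝ)) ≤ |p - r|) (hqr : 1 / (2 * (k : ℝ)) ≤ |q - r|)
    (hp : y k p = a + b * p) (hq : y k q = a + b * q) (hr : y k r = a + b * r) : False := by
  have hk' : (0 : ℝ) < k := by exact_mod_cast hk
  have he := eps_pos hk
  set δ : ℝ := 1 / (2 * (k : ℝ)) with hδ
  have hδ0 : 0 < δ := by positivity
  have key : ∀ x : ℝ, y k x = a + b * x → |x ^ 2 / 4 - a - b * x| ≤ eps k / 32 := by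
    intro x hx
    have h1 := sum_bound hk β (fun t ht => β_zero ht) (eps k) (1 / 32) (by norm_num) β_bound x
    rw [abs_of_pos he] at h1
    unfold y at hx
    have e : x ^ 2 / 4 - a - b * x = -(∑ i ∈ Finset.range k, eps k * β (tt k i x)) := by linarith
    rw [e, abs_neg]
    linarith
  have Hp := key p hp
  have Hq := key q hq
  have Hr := key r hr
  have ident : (1 / 4 : ℝ) * ((p - q) * (q - r) * (p - r)) =
      (p ^ 2 / 4 - a - b * p) * (q - r) - (q ^ 2 / 4 - a - b * q) * (p - r) +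
        (r ^ 2 / 4 - a - b * r) * (p - q) := by ring
  have habs : (1 / 4 : ℝ) * (|p - q| * |q - r| * |p - r|) ≤
      eps k / 32 * |q - r| + eps k / 32 * |p - r| + eps k / 32 * |p - q| := by
    have h1 : |(1 / 4 : ℝ) * ((p - q) * (q - r) * (p - r))| =
        (1 / 4 : ℝ) * (|p - q| * |q - r| * |p - r|) := by
      rw [abs_mul, abs_mul, abs_mul, abs_of_pos (by norm_num : (0 : ℝ) < 1 / 4)]
    rw [← h1, ident]
    refine (abs_add_le _ _).trans (add_le_add ((abs_sub _ _).trans (add_le_add ?_ ?_)) ?_)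
    · rw [abs_mul]; gcongr
    · rw [abs_mul]; gcongr
    · rw [abs_mul]; gcongr
  have hP : ∀ u v w : ℝ, δ ≤ u → δ ≤ v → δ ≤ w → δ ^ 2 * u ≤ u * v * w := by
    intro u v w hu hv hw
    have h1 : δ * δ ≤ v * w := mul_le_mul hv hw hδ0.le (hδ0.le.trans hv)
    have h2 : 0 ≤ u := hδ0.le.trans hu
    nlinarith [mul_le_mul_of_nonneg_left h1 h2]
  have h1 := hP _ _ _ hpq hqr hpr
  have h2 := hP _ _ _ hqr hpq hpr
  have h3 := hP _ _ _ hpr hpq hqr
  have hδe : eps k = 2 * δ ^ 2 := by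
    unfold eps; rw [hδ]; field_simp; try norm_num
  rw [hδe] at habs
  set P := |p - q| * |q - r| * |p - r| with hPdef
  have e2 : |q - r| * |p - q| * |p - r| = P := by rw [hPdef]; ring
  have e3 : |p - r| * |p - q| * |q - r| = P := by rw [hPdef]; ring
  rw [e2] at h2
  rw [e3] at h3
  have hPpos : 0 < P := by
    have : 0 < |p - q| := hδ0.trans_le hpq
    have : 0 < |q - r| := hδ0.trans_le hqr
    have : 0 < |p - r| := hδ0.trans_le hpr
    positivity
  nlinarith

end fn

open Classical in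
/-- every line meets the graph in at most 14 points -/
lemma few {k : ℕ} (hk : 0 < k) (a b : ℝ) :
    Set.encard {x ∈ Icc (0 : ℝ) 1 | y k x = a + b * x} ≤ 14 := by
  have hk' : (0 : ℝ) < k := by exact_mod_cast hk
  have he := eps_pos hk
  -- polynomials
  set q : ℝ[X] := C (1 / 4) * X ^ 2 - C b * X - C a with hq
  set p : ℕ → ℝ[X] := fun i => C (-(2 * eps k / eps k ^ 6)) *
    ((X - C (i / k : ℝ)) ^ 3 * (X - C (i / k + eps k : ℝ)) ^ 3) + q with hp
  have hqdeg : q.natDegree ≤ 2 := by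
    rw [hq]; compute_degree
  have hqne : q ≠ 0 := by
    intro h0
    have h1 : q.coeff 2 = 0 := by rw [h0]; simp
    rw [hq] at h1
    simp [coeff_X] at h1
  have hqcard : q.roots.toFinset.card ≤ 2 :=
    (Multiset.toFinset_card_le _).trans ((card_roots' q).trans hqdeg)
  have hpdeg : ∀ i, (p i).natDegree ≤ 6 := by
    intro i
    rw [hp]
    simp only
    refine (natDegree_add_le _ _).trans (max_le ?_ (hqdeg.trans (by norm_num)))
    refine (natDegree_C_mul_le _ _).trans ?_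
    refine (natDegree_mul_le).trans ?_
    have h1 : ((X - C (i / k : ℝ)) ^ 3 : ℝ[X]).natDegree = 3 := by
      rw [natDegree_pow, natDegree_X_sub_C]
    have h2 : ((X - C (i / k + eps k : ℝ)) ^ 3 : ℝ[X]).natDegree = 3 := by
      rw [natDegree_pow, natDegree_X_sub_C]
    rw [h1, h2]
  have hpne : ∀ i, p i ≠ 0 := by
    intro i h0
    have hmon : ((X - C (i / k : ℝ)) ^ 3 * (X - C (i / k + eps k : ℝ)) ^ 3 : ℝ[X]).Monic :=
      ((monic_X_sub_C _).pow 3).mul ((monic_X_sub_C _).pow 3)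
    have hdeg : ((X - C (i / k : ℝ)) ^ 3 * (X - C (i / k + eps k : ℝ)) ^ 3 : ℝ[X]).natDegree = 6 := by
      rw [((monic_X_sub_C _).pow 3).natDegree_mul ((monic_X_sub_C _).pow 3), natDegree_pow,
        natDegree_pow, natDegree_X_sub_C, natDegree_X_sub_C]
    have h1 : (p i).coeff 6 = 0 := by rw [h0]; simp
    rw [hp] at h1
    simp only at h1
    rw [coeff_add, coeff_C_mul, coeff_eq_zero_of_natDegree_lt (lt_of_le_of_lt hqdeg (by norm_num)),
      add_zero] at h1
    have h2 : ((X - C (i / k : ℝ)) ^ 3 * (X - C (i / k + eps k : ℝ)) ^ 3 : ℝ[X]).coeff 6 = 1 := by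
      have := hmon.coeff_natDegree
      rwa [hdeg] at this
    rw [h2, mul_one] at h1
    have : 2 * eps k / eps k ^ 6 ≠ 0 := by positivity
    exact this (by linarith)
  have hpcard : ∀ i, (p i).roots.toFinset.card ≤ 6 := fun i =>
    (Multiset.toFinset_card_le _).trans ((card_roots' _).trans (hpdeg i))
  set J : Finset ℕ := (Finset.range k).filter
    (fun i => ∃ x : ℝ, (i / k : ℝ) < x ∧ x < i / k + eps k ∧ y k x = a + b * x) with hJ
  have hJcard : J.card ≤ 2 := by
    by_contra hcon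
    push Not at hcon
    obtain ⟨i, hi, j, hj, l, hl, hij, hil, hjl⟩ := Finset.two_lt_card.mp hcon
    rw [hJ, Finset.mem_filter] at hi hj hl
    obtain ⟨_, u, hu1, hu2, hu⟩ := hi
    obtain ⟨_, v, hv1, hv2, hv⟩ := hj
    obtain ⟨_, w, hw1, hw2, hw⟩ := hl
    exact no_three hk (far hk hij hu1 hu2 hv1 hv2) (far hk hil hu1 hu2 hw1 hw2)
      (far hk hjl hv1 hv2 hw1 hw2) hu hv hw
  have hsub : {x ∈ Icc (0 : ℝ) 1 | y k x = a + b * x} ⊆
      ((q.roots.toFinset ∪ J.biUnion (fun i => (p i).roots.toFinset) : Finset ℝ) : Set ℝ) := by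
    rintro x ⟨_, hx⟩
    rw [Finset.mem_coe, Finset.mem_union]
    rcases one_bump hk β (fun t ht => β_zero ht) (eps k) x with h | ⟨i, hi, h1, h2, h⟩
    · left
      rw [Multiset.mem_toFinset, mem_roots hqne, IsRoot.def, hq]
      simp only [eval_sub, eval_mul, eval_C, eval_pow, eval_X]
      unfold y at hx
      rw [h] at hx
      linarith
    · right
      rw [Finset.mem_biUnion]
      refine ⟨i, ?_, ?_⟩
      · rw [hJ, Finset.mem_filter]
        exact ⟨hi, x, h1, h2, hx⟩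
      · rw [Multiset.mem_toFinset, mem_roots (hpne i), IsRoot.def, hp, hq]
        simp only [eval_add, eval_sub, eval_mul, eval_C, eval_pow, eval_X]
        have ht0 : 0 ≤ tt k i x := by
          unfold tt; apply div_nonneg _ he.le; linarith
        have ht1 : tt k i x ≤ 1 := by
          unfold tt; rw [div_le_one he]; linarith
        have hb := β_mid ht0 ht1
        unfold y at hx
        rw [h, hb] at hx
        have e1 : eps k * (2 * (tt k i x ^ 3 * (1 - tt k i x) ^ 3)) =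
            -(2 * eps k / eps k ^ 6) * ((x - i / k) ^ 3 * (x - (i / k + eps k)) ^ 3) := by
          unfold tt
          have : 1 - (x - i / k) / eps k = -(x - (i / k + eps k)) / eps k := by
            field_simp; ring
          rw [this, div_pow, div_pow]
          field_simp
        rw [e1] at hx
        linarith
  refine (Set.encard_le_encard hsub).trans ?_
  rw [Set.encard_coe_eq_coe_finsetCard]
  have : (q.roots.toFinset ∪ J.biUnion (fun i => (p i).roots.toFinset)).card ≤ 14 := by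
    refine (Finset.card_union_le _ _).trans ?_
    have h1 : (J.biUnion (fun i => (p i).roots.toFinset)).card ≤ J.card * 6 :=
      Finset.card_biUnion_le_card_mul _ _ _ (fun i _ => hpcard i)
    have h2 : J.card * 6 ≤ 2 * 6 := Nat.mul_le_mul_right 6 hJcard
    omega
  exact_mod_cast this

/-- **Negative answer to Q1.** -/
theorem result :
    (∀ K : ℝ, ∃ y : ℝ → ℝ, ContDiffOn ℝ 2 y (Icc 0 1) ∧
      (∀ x ∈ Icc (0 : ℝ) 1, |y x| ≤ 1) ∧
      (∀ x ∈ Icc (0 : ℝ) 1, |derivWithin y (Icc 0 1) x| ≤ 1) ∧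
      K ≤ ∫ x in (0 : ℝ)..1, |derivWithin (derivWithin y (Icc 0 1)) (Icc 0 1) x| ∧
      ∀ a b : ℝ, Set.encard {x ∈ Icc (0 : ℝ) 1 | y x = a + b * x} ≤ 14) ∧
    ¬ ∀ M N : ℕ, 0 < M → 0 < N → Claim M N := by
  have main : ∀ K : ℝ, ∃ y : ℝ → ℝ, ContDiffOn ℝ 2 y (Icc 0 1) ∧
      (∀ x ∈ Icc (0 : ℝ) 1, |y x| ≤ 1) ∧
      (∀ x ∈ Icc (0 : ℝ) 1, |derivWithin y (Icc 0 1) x| ≤ 1) ∧
      K ≤ ∫ x in (0 : ℝ)..1, |derivWithin (derivWithin y (Icc 0 1)) (Icc 0 1) x| ∧
      ∀ a b : ℝ, Set.encard {x ∈ Icc (0 : ℝ) 1 | y x = a + b * x} ≤ 14 := by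
    intro K
    obtain ⟨m, hm⟩ := exists_nat_ge (K * 10)
    set k := m + 1 with hkdef
    have hk : 0 < k := Nat.succ_pos _
    have hu : UniqueDiffOn ℝ (Icc (0 : ℝ) 1) := uniqueDiffOn_Icc zero_lt_one
    have hd1 : ∀ x ∈ Icc (0 : ℝ) 1, derivWithin (y k) (Icc 0 1) x = y1 k x := fun x hx =>
      (y_hasDerivAt hk x).hasDerivWithinAt.derivWithin (hu x hx)
    have hd2 : ∀ x ∈ Icc (0 : ℝ) 1,
        derivWithin (derivWithin (y k) (Icc 0 1)) (Icc 0 1) x = y2 k x := by
      intro x hx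
      rw [derivWithin_congr hd1 (hd1 x hx)]
      exact (y1_hasDerivAt hk x).hasDerivWithinAt.derivWithin (hu x hx)
    refine ⟨y k, (y_contDiff hk).contDiffOn, fun x hx => y_bound hk hx, ?_, ?_, few hk⟩
    · intro x hx
      rw [hd1 x hx]
      exact y1_bound hk hx
    · have h1 : ∫ x in (0 : ℝ)..1, |derivWithin (derivWithin (y k) (Icc 0 1)) (Icc 0 1) x| =
          ∫ x in (0 : ℝ)..1, |y2 k x| := by
        apply intervalIntegral.integral_congr
        intro x hx
        rw [uIcc_of_le zero_le_one] at hx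
        simp only
        rw [hd2 x hx]
      rw [h1]
      refine le_trans ?_ (curvature hk)
      have : (k : ℝ) = m + 1 := by rw [hkdef]; push_cast; ring
      rw [this]
      have hm0 : (0 : ℝ) ≤ m := Nat.cast_nonneg m
      linarith
  refine ⟨main, ?_⟩
  intro h
  obtain ⟨K, hK⟩ := h 1 15 one_pos (by norm_num)
  obtain ⟨y, h1, h2, h3, h4, h5⟩ := main K
  obtain ⟨a, b, hab⟩ := hK y h1 (by simpa using h2) (by simpa using h3) h4
  have h6 := hab.trans (h5 a b)
  exact absurd h6 (by norm_num)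

end Pool.Agent.Results.MP_d93447_an.FewLines
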